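import Pool.Agent.Q88.MD.Stm

/-!
# Assembly of the final statement
-/

set_option autoImplicit false

open MeasureTheory Set Filter Topology
open scoped ENNReal NNReal

noncomputable section

namespace Pool.Agent.Q88.MD

/-- The exceptional parameters. -/
def Exceptional (lam gam q : ℝ) : Prop :=
  1 < lam ∧ q * (lam - 1) = lam * (gam - 1) ∧ (lam - 1) / lam ^ 2 ≤ (gam - 1) / gam ^ 2

lemma ent_iff (henc : S_enc) {lam gam : ℝ} (hl : 1 < lam) (hg : 1 < gam) :
    Real.binEntropy (1 / lam) ≤ Real.binEntropy (1 / gam) ↔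
      (lam - 1) / lam ^ 2 ≤ (gam - 1) / gam ^ 2 := by
  have h1 : ∀ x : ℝ, 1 < x → (1 / x : ℝ) ∈ Ioo (0 : ℝ) 1 := fun x hx =>
    ⟨by positivity, by rw [div_lt_one (by linarith)]; exact hx⟩
  have h2 : ∀ x : ℝ, 1 < x → (1 / x) * (1 - 1 / x) = (x - 1) / x ^ 2 := by
    intro x hx
    have : x ≠ 0 := by positivity
    field_simp
  rw [henc _ (h1 lam hl) _ (h1 gam hg), h2 lam hl, h2 gam hg]

lemma exc_iff {lam gam q : ℝ} (hl : 1 < lam) :
    q * (lam - 1) = lam * (gam - 1) ↔ (gam - 1) / (lam - 1) = q - (gam - 1) := by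
  rw [div_eq_iff (by linarith)]
  constructor <;> intro h <;> nlinarith

theorem assemble (henc : S_enc) (hthz : S_thz) (hthr : S_thr) (hthb : S_thb) (hnpz : S_npz)
    (hnpr : S_npr) (hbad : S_bad) (lam gam q : ℝ) (h1 : 1 ≤ lam) (h2 : 1 < gam)
    (h3 : gam - 1 ≤ q) (f : ℝ → ℝ) (μ : Measure ℝ) (hf : IsDeRham lam gam q f)
    (hμ : IsMeasureOf f μ) :
    (∀ K ⊆ Icc (0 : ℝ) 1, MeasurableSet K →
      Polar (theta0 lam gam q / Real.log 2) K → μ K = 0) ↔ ¬ Exceptional lam gam q := by
  constructor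
  · intro hK hE
    obtain ⟨hl, he, hc⟩ := hE
    have hq : gam - 1 < q := by
      have : 0 < (q - (gam - 1)) * (lam - 1) := by nlinarith
      have h5 : 0 < lam - 1 := by linarith
      have := (mul_pos_iff_of_pos_right h5).1 this
      linarith
    have he' := (exc_iff hl).1 he
    have hent := (ent_iff henc hl h2).2 hc
    have hth : theta0 lam gam q = Real.binEntropy (1 / lam) := by
      rw [hthr lam gam q hl h2 hq]
      apply hthb (gam - 1) lam q (by linarith) hl hq he'
      rw [show 1 + (gam - 1) = gam by ring]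
      exact hent
    by_cases h2' : lam = 2
    · subst h2'
      have hg2 : gam = 2 := by
        have h5 : (0 : ℝ) < gam ^ 2 := by positivity
        rw [div_le_div_iff₀ (by norm_num) h5] at hc
        nlinarith [sq_nonneg (gam - 2)]
      have h6 := hK (Icc 0 1) Subset.rfl measurableSet_Icc (Or.inl (by
        rw [hth, show (1 / 2 : ℝ) = 2⁻¹ by norm_num, Real.binEntropy_two_inv]
        exact div_self (Real.log_pos (by norm_num)).ne'))
      have h7 : μ (Ico 0 1) = 1 := by
        rw [hμ.2 1 (by norm_num), hf.2.2.2.1, ENNReal.ofReal_one]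
      have h8 : μ (Ico 0 1) ≤ μ (Icc 0 1) := measure_mono Ico_subset_Icc_self
      rw [h6, h7] at h8
      norm_num at h8
    · obtain ⟨K, hKs, hKm, hKp, hKpos⟩ := hbad lam gam q hl h2 hq f μ hf hμ he' h2'
      rw [← hth] at hKp
      exact hKpos.ne' (hK K hKs hKm hKp)
  · intro hE K hKs hKm hKp
    by_contra hne
    have hpos : 0 < μ K := pos_iff_ne_zero.2 hne
    by_cases hd : lam = 1 ∨ q = gam - 1
    · rw [hthz lam gam q h1 h2 h3 hd, zero_div] at hKp
      exact hnpz lam gam q h1 h2 h3 f μ hf hμ K hKm hpos hKp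
    · push Not at hd
      have hl : 1 < lam := lt_of_le_of_ne h1 (Ne.symm hd.1)
      have hq : gam - 1 < q := lt_of_le_of_ne h3 (Ne.symm hd.2)
      rw [hthr lam gam q hl h2 hq] at hKp
      refine hnpr lam gam q hl h2 hq f μ hf hμ ?_ K hKm hpos hKp
      rintro ⟨h5, h6⟩
      exact hE ⟨hl, (exc_iff hl).2 h5, (ent_iff henc hl h2).1 h6⟩

end Pool.Agent.Q88.MD
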