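import Mathlib

/-!
# Project MD: polar sets and the Möbius de Rham measures

Let `f` be the solution of de Rham's equation for the linear fractional maps `F0`, `F1` (trapping
condition `1 ≤ lam`, `gam - 1 ≤ q`), `μ` its measure, `g = gam - 1 > 0`. In the coordinate `z = y + 1`
of the states the probability of the digit `0` is `z / (z + g)`, the states move by
`G0 z = (z + g) / lam`, `G1 z = q z / (z + g)`, and the initial state is `1`.

Theorem: every `d₀`-polar Borel set is `μ`-null, except if `1 < lam`, `q (lam - 1) = lam (gam - 1)` and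
`(lam - 1) / lam ^ 2 ≤ (gam - 1) / gam ^ 2`.
-/

set_option autoImplicit false

open MeasureTheory Set Filter Topology
open scoped ENNReal NNReal

noncomputable section

namespace Pool.Agent.Q88.MD

/-! ### Definitions of the problem -/

/-- The first map. -/
def F0 (lam gam x : ℝ) : ℝ := x / ((gam - lam) * x + lam)

/-- The second map. -/
def F1 (gam q x : ℝ) : ℝ := ((q - 1) * x + 1) / ((q - gam) * x + gam)

/-- `f` is the strictly increasing left-continuous solution of de Rham's equation on `[0, 1]`. -/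
def IsDeRham (lam gam q : ℝ) (f : ℝ → ℝ) : Prop :=
  StrictMonoOn f (Icc 0 1) ∧ (∀ x ∈ Ioc (0 : ℝ) 1, ContinuousWithinAt f (Iio x) x) ∧
    f 0 = 0 ∧ f 1 = 1 ∧
    ∀ x ∈ Icc (0 : ℝ) 1, f (x / 2) = F0 lam gam (f x) ∧ f ((x + 1) / 2) = F1 gam q (f x)

/-- `μ` is the Borel probability measure on `[0, 1]` with `f x = μ [0, x)`. -/
def IsMeasureOf (f : ℝ → ℝ) (μ : Measure ℝ) : Prop :=
  IsProbabilityMeasure μ ∧ ∀ x ∈ Icc (0 : ℝ) 1, μ (Ico 0 x) = ENNReal.ofReal (f x)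

/-- The energy `∫₀¹ (∫₀¹ |x - y|^(τ-1) dω(y))² dx`. -/
def energy (τ : ℝ) (om : Measure ℝ) : ℝ≥0∞ :=
  ∫⁻ x in Icc (0 : ℝ) 1, (∫⁻ y in Icc (0 : ℝ) 1, ENNReal.ofReal |x - y| ^ (τ - 1) ∂om) ^ 2

/-- The capacity: supremum of `ω(E)² / energy` over the finite measures with support in `E`. -/
def Qap (τ : ℝ) (E : Set ℝ) : ℝ≥0∞ :=
  ⨆ (om : Measure ℝ) (_ : IsFiniteMeasure om ∧ ∃ C, IsClosed C ∧ C ⊆ E ∧ om Cᶜ = 0),
    om E ^ 2 / energy τ om

/-- `s`-polar sets, `0 ≤ s ≤ 1`; for `s = 1` all sets. -/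
def Polar (s : ℝ) (E : Set ℝ) : Prop := s = 1 ∨ Qap ((1 - s) / 2) E = 0

/-- `r₀` -/
def r0 (lam gam : ℝ) : EReal := if lam = 1 then ⊤ else (((gam - lam) / (lam - 1) : ℝ) : EReal)

/-- `r₁` -/
def r1 (gam q : ℝ) : EReal := ((q - gam : ℝ) : EReal)

/-- `p₀(y) = (y + 1) / (y + γ)`, `p₀(∞) = 1` -/
def p0 (gam : ℝ) (y : EReal) : ℝ := if y = ⊤ then 1 else (y.toReal + 1) / (y.toReal + gam)

/-- `θ₀`, the minimum of the entropies for `y` between `α = min {0, r₀, r₁}` and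
`β = max {0, r₀, r₁}`. -/
def theta0 (lam gam q : ℝ) : ℝ :=
  sInf ((fun y => Real.binEntropy (p0 gam y)) ''
    Icc (min 0 (min (r0 lam gam) (r1 gam q))) (max 0 (max (r0 lam gam) (r1 gam q))))

/-! ### States and masses -/

/-- Probability of the digit `0`. -/
def pz (g z : ℝ) : ℝ := z / (z + g)

/-- The state after the digit `0`. -/
def G0 (g lam z : ℝ) : ℝ := (z + g) / lam

/-- The state after the digit `1`. -/
def G1 (g q z : ℝ) : ℝ := q * z / (z + g)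

/-- State of the dyadic interval `[k / 2^n, (k+1) / 2^n)`. -/
def st (g lam q : ℝ) : ℕ → ℕ → ℝ
  | 0, _ => 1
  | n + 1, k => if k % 2 = 0 then G0 g lam (st g lam q n (k / 2)) else G1 g q (st g lam q n (k / 2))

/-- Mass of the dyadic interval. -/
def ms (g lam q : ℝ) : ℕ → ℕ → ℝ
  | 0, _ => 1
  | n + 1, k => ms g lam q n (k / 2) *
      (if k % 2 = 0 then pz g (st g lam q n (k / 2)) else 1 - pz g (st g lam q n (k / 2)))

lemma st_even (g lam q : ℝ) (n k : ℕ) : st g lam q (n + 1) (2 * k) = G0 g lam (st g lam q n k) := by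
  rw [st, if_pos (by omega), show 2 * k / 2 = k by omega]

lemma st_odd (g lam q : ℝ) (n k : ℕ) : st g lam q (n + 1) (2 * k + 1) = G1 g q (st g lam q n k) := by
  rw [st, if_neg (by omega), show (2 * k + 1) / 2 = k by omega]

lemma ms_even (g lam q : ℝ) (n k : ℕ) :
    ms g lam q (n + 1) (2 * k) = ms g lam q n k * pz g (st g lam q n k) := by
  rw [ms, if_pos (by omega), show 2 * k / 2 = k by omega]

lemma ms_odd (g lam q : ℝ) (n k : ℕ) :
    ms g lam q (n + 1) (2 * k + 1) = ms g lam q n k * (1 - pz g (st g lam q n k)) := by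
  rw [ms, if_neg (by omega), show (2 * k + 1) / 2 = k by omega]

lemma sum_two_mul {M : Type*} [AddCommMonoid M] (m : ℕ) (F : ℕ → M) :
    ∑ k ∈ Finset.range (2 * m), F k = ∑ k ∈ Finset.range m, (F (2 * k) + F (2 * k + 1)) := by
  induction m with
  | zero => simp
  | succ m ih =>
    rw [show 2 * (m + 1) = 2 * m + 1 + 1 by ring, Finset.sum_range_succ, Finset.sum_range_succ, ih,
      Finset.sum_range_succ, add_assoc]

lemma sum_dy {M : Type*} [AddCommMonoid M] (n : ℕ) (F : ℕ → M) :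
    ∑ k ∈ Finset.range (2 ^ (n + 1)), F k =
      ∑ k ∈ Finset.range (2 ^ n), (F (2 * k) + F (2 * k + 1)) := by
  rw [pow_succ, mul_comm, sum_two_mul]

/-- The dyadic interval. -/
def dy (n k : ℕ) : Set ℝ := Ico ((k : ℝ) / 2 ^ n) ((k + 1 : ℝ) / 2 ^ n)

/-- Index of the dyadic interval of level `n` of `x ∈ [0, 1)`. -/
def dk (n : ℕ) (x : ℝ) : ℕ := ⌊(2 : ℝ) ^ n * x⌋₊

/-- **JOB SPOS** (0.3 h), `theorem spos : S_spos`.
Induction on `n`: `st > 0` (as `g > 0`, `lam ≥ 1`, `q ≥ g`), so `0 < pz < 1` and `ms > 0`; the sum over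
`k < 2^n` of `ms n k` is `1` (`sum_dy`, `ms_even`, `ms_odd`). -/
def S_spos : Prop :=
  ∀ g lam q : ℝ, 0 < g → 1 ≤ lam → g ≤ q → ∀ n : ℕ,
    (∀ k, 0 < st g lam q n k ∧ 0 < ms g lam q n k) ∧
      ∑ k ∈ Finset.range (2 ^ n), ms g lam q n k = 1

/-- **JOB MAS** (1.0 h), `theorem mas (h : S_spos) : S_mas`.
With `g = gam - 1`. By induction on `n`, for all `k < 2^n` there are real `A B C D` with `0 < D`,
`0 < C + D`, `(C + D) / D = st n k`, `f ((k + x) / 2^n) = (A f x + B) / (C f x + D)` for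
`x ∈ [0, 1]`, and `(A D - B C) / ((C + D) D) = ms n k`. Start: `A = D = 1`, `B = C = 0`. Step: with
`i ∈ {0, 1}`, `(2k + i + x) / 2^(n+1) = (k + (x + i) / 2) / 2^n` and `f ((x + i) / 2) = F_i (f x)`, so the
new matrix is the product with `[[1, 0], [gam - lam, lam]]` (`i = 0`), `[[q-1, 1], [q-gam, gam]]`
(`i = 1`): for `i = 0`: `C' = C + D (gam - lam)`, `D' = D lam`, `C' + D' = C + D gam = D (st + g)`,
`(C'+D')/D' = (st + g)/lam`; for `i = 1`: `D' = C + D gam`, `C' + D' = q (C + D)`. With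
`z = (C + D) / D` the quotient of the new and the old mass is `z / (z + g)`, respectively
`g / (z + g)`. (`C t + D > 0` for `t ∈ [0, 1]`, it is linear in `t`.) Finally
`μ [k/2^n, (k+1)/2^n) = f ((k+1)/2^n) - f (k/2^n) = (A + B)/(C + D) - B/D = (A D - B C)/((C + D) D)`. -/
def S_mas : Prop :=
  ∀ lam gam q : ℝ, 1 ≤ lam → 1 < gam → gam - 1 ≤ q → ∀ (f : ℝ → ℝ) (μ : Measure ℝ),
    IsDeRham lam gam q f → IsMeasureOf f μ → ∀ n k : ℕ, k < 2 ^ n →
      μ (dy n k) = ENNReal.ofReal (ms (gam - 1) lam q n k)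

/-! ### Energies -/

/-- **JOB QAP** (0.3 h), `theorem qap : S_qap`.
`om E = om univ` for `om Cᶜ = 0`, `C ⊆ E`; `ENNReal.div_eq_zero_iff`, `iSup_eq_bot`. -/
def S_qap : Prop :=
  ∀ (τ : ℝ) (E : Set ℝ), Qap τ E = 0 ↔
    ∀ om : Measure ℝ, IsFiniteMeasure om → (∃ C, IsClosed C ∧ C ⊆ E ∧ om Cᶜ = 0) → om ≠ 0 →
      energy τ om = ⊤

/-- **JOB KER** (1.0 h), `theorem ker : S_ker`.
`τ = (1 - s) / 2 > 0`, `2 τ - 1 = - s`, `D = |y - z| ≤ 1`. If `D = 0` the right hand side is `⊤`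
(`∑ 2^(n s) = ⊤` as `s ≥ 0`, `C > 0`). Let `D > 0`. On `{x : |x - y| ≤ |x - z|}` we have
`|x - z| ≥ max (D/2) |x - y|`, so the integrand is at most `|x-y|^(τ-1) max(D/2, |x-y|)^(τ-1)`; symmetric
on the other part. So the left hand side is at most
`4 ∫ u in (0, 1], u^(τ-1) max(D/2, u)^(τ-1) ≤ 4 ((D/2)^(-s) / τ + ∫ u in (D/2, 1], u^(-1-s))`. Let `N` be the
largest `n` with `D/2 ≤ 2^(-n)`. Then `(D/2)^(-s) ≤ 2^((N+1) s)` and
`∫_(D/2)^1 ≤ ∑ n ≤ N, ∫ over (2^(-n-1), 2^(-n)] ≤ ∑ n ≤ N, 2^((n+1) s)`. -/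
def S_ker : Prop :=
  ∀ s ∈ Ico (0 : ℝ) 1, ∃ C : ℝ≥0∞, C ≠ ⊤ ∧ ∀ y ∈ Icc (0 : ℝ) 1, ∀ z ∈ Icc (0 : ℝ) 1,
    ∫⁻ x in Icc (0 : ℝ) 1, ENNReal.ofReal |x - y| ^ ((1 - s) / 2 - 1) *
        ENNReal.ofReal |x - z| ^ ((1 - s) / 2 - 1) ≤
      C * ∑' n : ℕ, ENNReal.ofReal (2 ^ (n * s)) *
        {w : ℝ | w ≤ 2 * (1 / 2) ^ n}.indicator (fun _ => 1) |y - z|

/-- **JOB DBL** (0.6 h), `theorem dbl : S_dbl`.
If `y, z ∈ [0, 1)` and `|y - z| ≤ 2 * 2^(-n)`, then the indices `dk n y`, `dk n z` differ by at most `2`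
(and are `< 2^n`). So the double integral is at most `∑ over j = -2..2, ∑ k, om (dy n k) om (dy n (k+j))`,
and `2 a b ≤ a² + b²`. -/
def S_dbl : Prop :=
  ∀ om : Measure ℝ, IsFiniteMeasure om → om (Ico (0 : ℝ) 1)ᶜ = 0 → ∀ n : ℕ,
    ∫⁻ y, ∫⁻ z, {w : ℝ | w ≤ 2 * (1 / 2) ^ n}.indicator (fun _ => (1 : ℝ≥0∞)) |y - z| ∂om ∂om ≤
      5 * ∑ k ∈ Finset.range (2 ^ n), om (dy n k) ^ 2

/-- **JOB ENG** (0.8 h), `theorem eng (h : S_ker) (h1 : S_dbl) : S_eng`.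
The square of the inner integral is a double integral; Tonelli
(`lintegral_lintegral_swap`, finite measures) gives
`energy = ∫⁻ y, ∫⁻ z, (∫⁻ x, …) ≤ C ∑' n, 2^(n s) ∫⁻ y, ∫⁻ z, indicator ≤ 5 C ∑' n, 2^(n s) ∑ k, om (dy n k)²`.
(`om` lives on `[0, 1)`, so the restriction to `[0, 1]` in the inner integral changes nothing.) -/
def S_eng : Prop :=
  ∀ s ∈ Ico (0 : ℝ) 1, ∀ om : Measure ℝ, IsFiniteMeasure om → om (Ico (0 : ℝ) 1)ᶜ = 0 →
    ∑' n : ℕ, ENNReal.ofReal (2 ^ (n * s)) * ∑ k ∈ Finset.range (2 ^ n), om (dy n k) ^ 2 ≠ ⊤ →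
    energy ((1 - s) / 2) om ≠ ⊤

/-- **JOB CPT** (0.4 h), `theorem cpt (h : S_qap) (h1 : S_eng) : S_cpt`.
`om = μ.restrict C` with a compact `C ⊆ A ∩ [0, 1)`, `μ C > 0` (inner regularity; `μ` is finite on `ℝ`),
so `om Cᶜ = 0`, `om ≠ 0`, and the energy of `om` is finite by `S_eng`. By `S_qap` the set `A` is not
polar. -/
def S_cpt : Prop :=
  ∀ s ∈ Ico (0 : ℝ) 1, ∀ μ : Measure ℝ, IsFiniteMeasure μ → ∀ A : Set ℝ, MeasurableSet A →
    0 < μ (A ∩ Ico 0 1) →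
    (∀ C ⊆ A ∩ Ico 0 1, IsCompact C → ∑' n : ℕ, ENNReal.ofReal (2 ^ (n * s)) *
      ∑ k ∈ Finset.range (2 ^ n), μ.restrict C (dy n k) ^ 2 ≠ ⊤) →
    ¬ Polar s A

/-- **JOB NPL** (0.8 h), `theorem npl (h : S_cpt) : S_npl`.
Let `A_m = {x ∈ K ∩ [0, 1) | ∀ n ≥ m, μ (dy n (dk n x)) ≤ b n}` (Borel); some `A_m` has positive
measure. Let `C ⊆ A_m` be compact. If `n ≥ m` and `dy n k` meets `C` in `x`, then `k = dk n x` and
`μ.restrict C (dy n k) ≤ μ (dy n k) ≤ b n`; so `∑ k, μ.restrict C (dy n k)² ≤ b n * μ univ` for `n ≥ m`,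
and it is finite for `n < m`. So `S_cpt` applies to `A_m`, which is therefore not polar, and `K ⊇ A_m`
is not polar either (`Qap` is monotone: if `C ⊆ A_m` is closed, `om Cᶜ = 0`, then
`om K = om A_m`). -/
def S_npl : Prop :=
  ∀ s ∈ Ico (0 : ℝ) 1, ∀ μ : Measure ℝ, IsFiniteMeasure μ → ∀ b : ℕ → ℝ≥0∞,
    ∑' n : ℕ, ENNReal.ofReal (2 ^ (n * s)) * b n ≠ ⊤ → (∀ n, b n ≠ ⊤) →
    ∀ K : Set ℝ, MeasurableSet K → 0 < μ (K ∩ Ico 0 1) →
    (∀ᵐ x ∂(μ.restrict (Ico 0 1)), ∀ᶠ n in atTop, μ (dy n (dk n x)) ≤ b n) → ¬ Polar s K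

/-! ### Logarithmic energy is always finite -/

/-- **JOB SUP** (0.7 h), `theorem supr (h : S_spos) : S_sup`.
Let `Ψ z = 2 z / g + lam + q / g + 2 g / z`. For all `z > 0`, with `p = pz g z`:
`1 + p² Ψ (G0 z) + (1 - p)² Ψ (G1 z) ≤ Ψ z`. Indeed, with `a = 2/g`, `b = lam + q/g`, `c = 2 g`,
`D = z + g`: the difference of the right and the left hand side is at least
`a z g / D + c / D + 2 b g z / D² - c lam z² / D³ - a q g² z / D³ - 1` (use `lam ≥ 1`, `q ≥ g`), where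
`a z g / D + c / D = 2` and `2 b g ≥ c lam + a q g = 2 g lam + 2 q` covers the negative terms. Hence
`T n = ∑ k < 2^n, ms n k ² Ψ (st n k)` satisfies `T (n+1) ≤ T n - ∑ k, ms n k ²` (`sum_dy`), so the sum
over `n < N` is at most `T 0 = Ψ 1`. -/
def S_sup : Prop :=
  ∀ g lam q : ℝ, 0 < g → 1 ≤ lam → g ≤ q → ∀ N : ℕ,
    ∑ n ∈ Finset.range N, ∑ k ∈ Finset.range (2 ^ n), ms g lam q n k ^ 2 ≤
      2 / g + lam + q / g + 2 * g

/-- **JOB NPZ** (0.5 h), `theorem npz (h : S_spos) (h1 : S_mas) (h2 : S_cpt) (h3 : S_sup) : S_npz`.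
`S_cpt` with `s = 0`: `μ.restrict C (dy n k) ≤ μ (dy n k) = ms n k` and `S_sup`. (`μ [0, 1) = f 1 = 1`, so
`μ (K ∩ [0, 1)) = μ K`.) -/
def S_npz : Prop :=
  ∀ lam gam q : ℝ, 1 ≤ lam → 1 < gam → gam - 1 ≤ q → ∀ (f : ℝ → ℝ) (μ : Measure ℝ),
    IsDeRham lam gam q f → IsMeasureOf f μ → ∀ K : Set ℝ, MeasurableSet K → 0 < μ K →
      ¬ Polar 0 K

/-! ### The regular case `1 < lam`, `g < q` -/

/-- The left end of the interval of the states. -/
def za (g lam q : ℝ) : ℝ := min 1 (min (g / (lam - 1)) (q - g))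

/-- The right end of the interval of the states. -/
def zb (g lam q : ℝ) : ℝ := max 1 (max (g / (lam - 1)) (q - g))

/-- The minimum of the entropies. -/
def th (g lam q : ℝ) : ℝ :=
  min (Real.binEntropy (pz g (za g lam q))) (Real.binEntropy (pz g (zb g lam q)))

/-- **JOB INV** (0.4 h), `theorem inv : S_inv`.
`G0 z - g/(lam-1) = (z - g/(lam-1)) / lam`, and `G1 z - (q-g) = g (z - (q-g)) / (z + g)`; both factors
are in `(0, 1)`. So `G0`, `G1` map `[za, zb]` into itself; `1 ∈ [za, zb]`, `za > 0`. -/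
def S_inv : Prop :=
  ∀ g lam q : ℝ, 0 < g → 1 < lam → g < q →
    0 < za g lam q ∧ (∀ z ∈ Icc (za g lam q) (zb g lam q),
      G0 g lam z ∈ Icc (za g lam q) (zb g lam q) ∧ G1 g q z ∈ Icc (za g lam q) (zb g lam q)) ∧
    ∀ n k, st g lam q n k ∈ Icc (za g lam q) (zb g lam q)

/-- **JOB STR** (0.6 h), `theorem str (h : S_inv) : S_str`.
`pz g` is strictly increasing on `(0, ∞)` with values in `(0, 1)`, and `Real.binEntropy` is strictly
concave on `[0, 1]` (`Real.strictConcave_binEntropy`); so `binEntropy (pz g z) ≥ th` on `[za, zb]`, with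
strict inequality if `za < z < zb`. Second part: let `z ∈ [za, zb]` and suppose that both `G0 z` and
`G1 z` have entropy `≤ th`; then both are end points `za` or `zb` (or `za = zb`). Since
`G0 z - z₀ = (z - z₀) / lam` for `z₀ = g/(lam-1) ∈ [za, zb]`: if `z ≠ z₀` then `G0 z` lies strictly between
`z` and `z₀`, hence is not an end point. So `z = z₀`, and in the same way `z = z₁ = q - g`. So
`z₀ = z₁ = z = G0 z`, and the entropy at `z₀` is `th`; `pz g z₀ = 1 / lam` and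
`th ≤ binEntropy (pz g 1)`, `pz g 1 = 1 / (1 + g)`: contradiction to the hypothesis. -/
def S_str : Prop :=
  ∀ g lam q : ℝ, 0 < g → 1 < lam → g < q →
    (∀ z ∈ Icc (za g lam q) (zb g lam q), th g lam q ≤ Real.binEntropy (pz g z)) ∧
    (¬ (g / (lam - 1) = q - g ∧ Real.binEntropy (1 / lam) ≤ Real.binEntropy (1 / (1 + g))) →
      ∀ z ∈ Icc (za g lam q) (zb g lam q),
        th g lam q < Real.binEntropy (pz g (G0 g lam z)) ∨
        th g lam q < Real.binEntropy (pz g (G1 g q z)))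

/-- The two step entropy. -/
def H2 (g lam q z : ℝ) : ℝ :=
  Real.binEntropy (pz g z) + pz g z * Real.binEntropy (pz g (G0 g lam z)) +
    (1 - pz g z) * Real.binEntropy (pz g (G1 g q z))

/-- **JOB HTW** (0.5 h), `theorem htw (h : S_inv) (h1 : S_str) : S_htw`.
By `S_str` `H2 z > 2 th` for all `z` in the compact interval (`0 < pz < 1`), and `H2` is continuous
there. -/
def S_htw : Prop :=
  ∀ g lam q : ℝ, 0 < g → 1 < lam → g < q →
    ¬ (g / (lam - 1) = q - g ∧ Real.binEntropy (1 / lam) ≤ Real.binEntropy (1 / (1 + g))) →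
    ∃ δ > 0, ∀ z ∈ Icc (za g lam q) (zb g lam q), 2 * th g lam q + 4 * δ ≤ H2 g lam q z

/-- The two step moment. -/
def B2 (g lam q t z : ℝ) : ℝ :=
  pz g z ^ (1 + t) *
      (pz g (G0 g lam z) ^ (1 + t) + (1 - pz g (G0 g lam z)) ^ (1 + t)) +
    (1 - pz g z) ^ (1 + t) * (pz g (G1 g q z) ^ (1 + t) + (1 - pz g (G1 g q z)) ^ (1 + t))

/-- **JOB TAY** (0.8 h), `theorem tay : S_tay`.
`B2` is the sum of `M_w^(1+t)` over the four products `M_w` of the two step probabilities (sum `1`),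
`H2 = ∑ M_w log (1/M_w)`. For `0 < x ≤ 1`, `L = log (1/x)`:
`x^(1+t) = x e^(-t L) ≤ x (1 - t L + t² L² / 2)` and `x L² ≤ 4 e^(-2) ≤ 3/4`. So
`B2 ≤ 1 - t H2 + (3/2) t² ≤ exp (-t (H2 - (3/2) t))`. -/
def S_tay : Prop :=
  ∀ g lam q z t : ℝ, 0 < g → 1 < lam → g < q → 0 < z → 0 < t →
    B2 g lam q t z ≤ Real.exp (-t * (H2 g lam q z - 3 / 2 * t))

/-- **JOB MOM** (0.6 h), `theorem mom (h : S_spos) (h0 : S_inv) (h1 : S_htw) (h2 : S_tay) : S_mom`.
`δ` from `S_htw`, `t = δ`: `B2 ≤ exp (-t (2 th + 4 δ - (3/2) δ)) ≤ exp (-2 t (th + δ))` on the interval of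
the states. `∑ k < 2^(2(n+1)), ms^(1+t) = ∑ k < 2^(2n), ms^(1+t) B2 (st)` (`sum_dy` twice). -/
def S_mom : Prop :=
  ∀ g lam q : ℝ, 0 < g → 1 < lam → g < q →
    ¬ (g / (lam - 1) = q - g ∧ Real.binEntropy (1 / lam) ≤ Real.binEntropy (1 / (1 + g))) →
    ∃ δ > 0, ∃ t > 0, ∀ n : ℕ, ∑ k ∈ Finset.range (2 ^ (2 * n)), ms g lam q (2 * n) k ^ (1 + t) ≤
      Real.exp (-2 * t * (th g lam q + δ) * n)

/-- **JOB BCA** (0.8 h), `theorem bca (h : S_spos) (h1 : S_mas) (h2 : S_mom) : S_bca`.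
With `g = gam - 1`, `δ`, `t` from `S_mom`. The set of the `x ∈ [0, 1)` with
`μ (dy (2n) (dk (2n) x)) > exp (-2 n (th + δ/2))` is the union of the `dy (2n) k` with
`ms (2n) k > exp (…)`, so its measure is at most `∑ ms (ms exp (2 n (th + δ/2)))^t ≤ exp (-n t δ)`: summable,
Borel–Cantelli (`measure_limsup_eq_zero`/`measure_setOf_frequently_eq_zero`). For odd levels use
`dy (2n+1) k ⊆ dy (2n) (k/2)`. Result with `δ' = δ/2` and a constant `C`. -/
def S_bca : Prop :=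
  ∀ lam gam q : ℝ, 1 < lam → 1 < gam → gam - 1 < q → ∀ (f : ℝ → ℝ) (μ : Measure ℝ),
    IsDeRham lam gam q f → IsMeasureOf f μ →
    ¬ ((gam - 1) / (lam - 1) = q - (gam - 1) ∧
      Real.binEntropy (1 / lam) ≤ Real.binEntropy (1 / gam)) →
    ∃ δ > 0, ∃ C > 0, ∀ᵐ x ∂(μ.restrict (Ico 0 1)), ∀ᶠ n : ℕ in atTop,
      μ (dy n (dk n x)) ≤ ENNReal.ofReal (C * Real.exp (-(n : ℝ) * (th (gam - 1) lam q + δ)))

/-- **JOB TLT** (0.3 h), `theorem tlt (h : S_inv) : S_tlt`.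
`0 < pz < 1` gives `0 < th`. `th ≤ log 2` always; if `th = log 2`, then `pz = 1/2` at both ends, so
`za = zb = g`, hence `1 = g / (lam - 1) = q - g = g`, `lam = 2`, and the excluded condition holds. -/
def S_tlt : Prop :=
  ∀ g lam q : ℝ, 0 < g → 1 < lam → g < q → 0 < th g lam q ∧
    (¬ (g / (lam - 1) = q - g ∧ Real.binEntropy (1 / lam) ≤ Real.binEntropy (1 / (1 + g))) →
      th g lam q < Real.log 2)

/-- **JOB NPR** (0.5 h), `theorem npr (h : S_npl) (h1 : S_bca) (h2 : S_tlt) : S_npr`.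
`s = th / log 2 ∈ (0, 1)`, `2^(n s) = exp (n th)`, so `∑ 2^(n s) b n = C ∑ exp (-n δ) < ∞` for
`b n = C exp (-n (th + δ))`. -/
def S_npr : Prop :=
  ∀ lam gam q : ℝ, 1 < lam → 1 < gam → gam - 1 < q → ∀ (f : ℝ → ℝ) (μ : Measure ℝ),
    IsDeRham lam gam q f → IsMeasureOf f μ →
    ¬ ((gam - 1) / (lam - 1) = q - (gam - 1) ∧
      Real.binEntropy (1 / lam) ≤ Real.binEntropy (1 / gam)) →
    ∀ K : Set ℝ, MeasurableSet K → 0 < μ K → ¬ Polar (th (gam - 1) lam q / Real.log 2) K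

/-! ### The exceptional parameters -/

/-- **JOB POL** (1.0 h), `theorem pol (h : S_qap) : S_pol`.
Let `om ≠ 0` be a finite measure with `om Cᶜ = 0`, `C ⊆ E` closed, and finite energy `I`,
`τ = (1 - s)/2`. (1) For a countable disjoint family of dyadic intervals `J_j ⊆ [0, 1)` of levels `n_j`:
for `x ∈ J_j` the inner integral is at least `2^(n_j (1 - τ)) om (J_j)`, so
`∑ 2^(n_j s) om (J_j)² ≤ I` (`2 (1 - τ) - 1 = s`). (2) So for `a > 0` the set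
`E_a = {x ∈ [0, 1) | ∃ n, 2^(n s) om (dy n (dk n x)) ≥ a}` has `om`-measure at most `I / a` (take the
maximal dyadic intervals with this property; they are disjoint and cover `E_a`). Choose `a` with
`I / a < om univ`: the set `E' = E \ E_a` has positive `om`-measure. (3) For every `B > 0` the points of
`E` lie in dyadic intervals `J` of level `n` with `μ (J) ≥ B 2^(-n s)`; the maximal ones are disjoint
and cover `E`. Those which meet `E'` have `om (J) < a 2^(-n s) ≤ (a/B) μ (J)`, so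
`om (E') ≤ (a/B) μ univ`. Let `B → ∞`: `om (E') = 0`, a contradiction. -/
def S_pol : Prop :=
  ∀ s ∈ Ico (0 : ℝ) 1, ∀ μ : Measure ℝ, IsFiniteMeasure μ → ∀ E ⊆ Ico (0 : ℝ) 1, MeasurableSet E →
    (∀ x ∈ E, ∀ B : ℕ, ∃ n : ℕ, ENNReal.ofReal (B * 2 ^ (-(n * s))) ≤ μ (dy n (dk n x))) →
    Polar s E

/-- **JOB CNV** (0.5 h), `theorem cnv (h : S_inv) : S_cnv`.
`z* = g/(lam-1) = q - g`, `pz g z* = 1/lam`. `|G0 z - z*| = |z - z*| / lam`,
`|G1 z - z*| = g |z - z*| / (z + g)`, so `|st n k - z*| ≤ C ρ^n` with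
`ρ = max (1/lam) (g / (za + g)) < 1`; `pz g` is Lipschitz on `[za, ∞)` (constant `1/g` will do). -/
def S_cnv : Prop :=
  ∀ g lam q : ℝ, 0 < g → 1 < lam → g < q → g / (lam - 1) = q - g →
    ∃ C > 0, ∃ ρ ∈ Ioo (0 : ℝ) 1, ∀ n k, |pz g (st g lam q n k) - 1 / lam| ≤ C * ρ ^ n

/-- The centred number of the digits `1` (`n` digits) of `k`, for the probability `1 - 1/lam`. -/
def WW (lam : ℝ) : ℕ → ℕ → ℝ
  | 0, _ => 0
  | n + 1, k => WW lam n (k / 2) + (if k % 2 = 0 then -(1 - 1 / lam) else 1 / lam)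

/-- **JOB LGM** (0.7 h), `theorem lgm (h : S_spos) (h0 : S_inv) (h1 : S_cnv) : S_lgm`.
Let `P0 = 1/lam`, `P1 = 1 - 1/lam`, `ℓ = log P1 - log P0 = log (lam - 1)`, `H = binEntropy (1/lam)`. One
step with digit `i` adds `log (prob)` to `log ms`, and `-H + ℓ (i - P1) = log P_i` to
`-n H + ℓ WW n k`. The difference of a step is `|log (prob) - log P_i| ≤ C' ρ^n` by `S_cnv`, as the
probabilities `pz`, `1 - pz` of the states are bounded below by a positive constant. Sum up. -/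
def S_lgm : Prop :=
  ∀ g lam q : ℝ, 0 < g → 1 < lam → g < q → g / (lam - 1) = q - g →
    ∃ C > 0, ∀ n k, |Real.log (ms g lam q n k) -
      (-(n : ℝ) * Real.binEntropy (1 / lam) + Real.log (lam - 1) * WW lam n k)| ≤ C

/-- **JOB MM1** (0.5 h), `theorem mm1 (h : S_spos) (h1 : S_cnv) : S_mm1`.
Write `E n F = ∑ k < 2^n, ms n k * F k`. By `sum_dy`, given the node `(n, k)` the expectation of the
increment of `WW` is `e = (1 - pz) - (1 - 1/lam)`, `|e| ≤ C ρ^n`. So `|E n WW| ≤ C / (1 - ρ)`. -/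
def S_mm1 : Prop :=
  ∀ g lam q : ℝ, 0 < g → 1 < lam → g < q → g / (lam - 1) = q - g →
    ∃ C > 0, ∀ n : ℕ, |∑ k ∈ Finset.range (2 ^ n), ms g lam q n k * WW lam n k| ≤ C

/-- **JOB MM2** (0.8 h), `theorem mm2 (h : S_spos) (h1 : S_cnv) : S_mm2`.
`|WW n k| ≤ n`. The square of the increment is between `m² = min (1/lam) (1 - 1/lam) ^ 2` and `1`, and
`|2 E (WW e)| ≤ 2 n C ρ^n` is summable. So `m² n - C' ≤ E n (WW²) ≤ n + C'`. -/
def S_mm2 : Prop :=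
  ∀ g lam q : ℝ, 0 < g → 1 < lam → g < q → g / (lam - 1) = q - g →
    ∃ c > 0, ∃ C > 0, ∀ n : ℕ,
      c * n - C ≤ ∑ k ∈ Finset.range (2 ^ n), ms g lam q n k * WW lam n k ^ 2 ∧
      ∑ k ∈ Finset.range (2 ^ n), ms g lam q n k * WW lam n k ^ 2 ≤ n + C

/-- **JOB MM4** (0.8 h), `theorem mm4 (h : S_spos) (h1 : S_cnv) (h2 : S_mm2) : S_mm4`.
With the increment `d`, `|d| ≤ 1`, of conditional expectation `e`:
`(W + d)⁴ = W⁴ + 4 W³ d + 6 W² d² + 4 W d³ + d⁴`, the expectation of `4 W³ d` is `4 E (W³ e)`, at most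
`4 n³ C ρ^n` (summable), `|4 W d³| ≤ 2 (W² + 1)`. So `E (n+1) (WW⁴) ≤ E n (WW⁴) + 8 E n (WW²) + 3 + …`, and
with `S_mm2` `E n (WW⁴) ≤ C (n + 1)²`. -/
def S_mm4 : Prop :=
  ∀ g lam q : ℝ, 0 < g → 1 < lam → g < q → g / (lam - 1) = q - g →
    ∃ C > 0, ∀ n : ℕ,
      ∑ k ∈ Finset.range (2 ^ n), ms g lam q n k * WW lam n k ^ 4 ≤ C * (n + 1) ^ 2

/-- **JOB PZG** (0.8 h), `theorem pzg (h : S_spos) (h1 : S_mm1) (h2 : S_mm2) (h4 : S_mm4) : S_pzg`.
Hölder: `E W² ≤ (E |W|)^(2/3) (E W⁴)^(1/3)`, (or: for `M > 0`, `W² ≤ M |W| + W⁴ / M²`, choose `M = A √n`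
with `A` large), so `E |W| ≥ c √n` for large `n`. With `ε = ±1`: `E (ε W)⁺ ≥ (E |W| - |E W|)/2 ≥ c' √n`. And
`E (ε W)⁺ ≤ (c'/2) √n + E (|W|; ε W ≥ (c'/2) √n) ≤ (c'/2) √n + (E W²)^(1/2) P^(1/2)` (Cauchy–Schwarz), `P` =
the mass of the `k` with `ε W ≥ (c'/2) √n`. So `P ≥ c''` for large `n`. -/
def S_pzg : Prop :=
  ∀ g lam q : ℝ, 0 < g → 1 < lam → g < q → g / (lam - 1) = q - g → ∀ ε : ℝ, ε = 1 ∨ ε = -1 →
    ∃ c > 0, ∀ᶠ n : ℕ in atTop,
      c ≤ ∑ k ∈ (Finset.range (2 ^ n)).filter (fun k => c * Real.sqrt n ≤ ε * WW lam n k),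
        ms g lam q n k

/-- **JOB BAD** (1.0 h), `theorem bad (h : S_spos) (h1 : S_mas) (h2 : S_pol) (h3 : S_lgm)
(h4 : S_pzg) : S_bad`.
`s = binEntropy (1/lam) / log 2 < 1` as `lam ≠ 2`; `ℓ = log (lam - 1) ≠ 0`, `ε` = sign of `ℓ`. Let
`E = {x ∈ [0, 1) | ∀ B, ∃ n, B 2^(-n s) ≤ μ (dy n (dk n x))}`, `s`-polar by `S_pol`. With `g = gam - 1`:
by `S_lgm` `μ (dy n k) 2^(n s) ≥ exp (ℓ WW n k - C)`, so `E` contains all `x` such that
`ε WW n (dk n x) ≥ c √n` for infinitely many `n`. The sets `A_n` of the `x` with this inequality have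
measure `≥ c` for large `n` (`S_pzg`, `S_mas`), so `μ (limsup A_n) ≥ c > 0` (finite measure, reverse Fatou;
e.g. `μ (⋃ n ≥ m, A_n) ≥ c` and continuity from above). -/
def S_bad : Prop :=
  ∀ lam gam q : ℝ, 1 < lam → 1 < gam → gam - 1 < q → ∀ (f : ℝ → ℝ) (μ : Measure ℝ),
    IsDeRham lam gam q f → IsMeasureOf f μ → (gam - 1) / (lam - 1) = q - (gam - 1) → lam ≠ 2 →
    ∃ K ⊆ Icc (0 : ℝ) 1, MeasurableSet K ∧ Polar (Real.binEntropy (1 / lam) / Real.log 2) K ∧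
      0 < μ K

/-! ### The number `θ₀` -/

/-- **JOB THZ** (0.5 h), `theorem thz : S_thz`.
If `lam = 1`, then `⊤` is in the interval and `p0 gam ⊤ = 1`; if `q = gam - 1`, then `-1 = r1` is in the
interval and `p0 gam (-1) = 0`. In both cases the value `0` is attained, and all values are
nonnegative: for `y ≥ -1` (the left end is at least `-1`: `r0 ≥ -1`, `r1 ≥ -1`), `p0 gam y ∈ [0, 1]`. -/
def S_thz : Prop :=
  ∀ lam gam q : ℝ, 1 ≤ lam → 1 < gam → gam - 1 ≤ q → (lam = 1 ∨ q = gam - 1) →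
    theta0 lam gam q = 0

/-- **JOB THR** (0.7 h), `theorem thr (h : S_inv) (h1 : S_str) : S_thr`.
`g = gam - 1`. In the real coordinate `z = y + 1`: `r0 + 1 = g / (lam - 1)`, `r1 + 1 = q - g`,
`0 + 1 = 1`, `p0 gam y = pz g z`; so the set is `{binEntropy (pz g z) | z ∈ [za, zb]}` and the infimum is
attained at one of the ends (`S_str`). -/
def S_thr : Prop :=
  ∀ lam gam q : ℝ, 1 < lam → 1 < gam → gam - 1 < q →
    theta0 lam gam q = th (gam - 1) lam q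

/-- **JOB THB** (0.4 h), `theorem thb : S_thb`.
If `g/(lam-1) = q - g`, then `{za, zb} = {1, z*}` with `pz g z* = 1/lam`, `pz g 1 = 1/(1+g)`, so `th` is the
minimum of the two entropies. -/
def S_thb : Prop :=
  ∀ g lam q : ℝ, 0 < g → 1 < lam → g < q → g / (lam - 1) = q - g →
    Real.binEntropy (1 / lam) ≤ Real.binEntropy (1 / (1 + g)) →
    th g lam q = Real.binEntropy (1 / lam)

/-- **JOB ENC** (0.5 h), `theorem enc : S_enc`.
`binEntropy` is symmetric (`binEntropy_one_sub`) and strictly increasing on `[0, 1/2]`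
(`Real.binEntropy_strictMonoOn`), and so is `p (1 - p)`; replace `p`, `r` by `min p (1-p)`,
`min r (1-r)`. -/
def S_enc : Prop :=
  ∀ p ∈ Ioo (0 : ℝ) 1, ∀ r ∈ Ioo (0 : ℝ) 1,
    (Real.binEntropy p ≤ Real.binEntropy r ↔ p * (1 - p) ≤ r * (1 - r))

end Pool.Agent.Q88.MD
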